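import Mathlib
import Pool.Agent.MP_d45d16_ag.yag.All
import Pool.Agent.MP_d45d16_ag.yag.Phi

/-!
The restriction map on algebraic cobordism of the generic flag variety `E / P` of
`G = G₂ × G₂` is not injective.
-/

set_option autoImplicit false

namespace Pool.Agent.Results.MP_d45d16_ag.NotInjective

open Pool.Agent.MP_d45d16_ag

theorem result : ¬ ResInj (Flag.flag Flag.gen (Flag.FF Flag.gen)) :=
  Yag.assemble' (Yag.phi_stmt Yag.ptAPI Yag.projAPI (Yag.idlAPI Yag.ptAPI) Yag.smAPI
    (Yag.valAPI Yag.ptAPI Yag.prmAPI Yag.smAPI) Yag.recip)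

end Pool.Agent.Results.MP_d45d16_ag.NotInjective
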