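import Mathlib
import Pool.Agent.MP_d45d16_ag.sp.All

/-!
The restriction map on algebraic cobordism of the generic flag variety `E / P` of the simple
simply connected group `G = Spin₁₄` (the twisted variety of pure spinors) is not injective.
-/

set_option autoImplicit false

namespace Pool.Agent.Results.MP_d45d16_ag.SpinFourteen

open Pool.Agent.MP_d45d16_ag

/-- The restriction map is injective for the twisted variety of pure spinors given by the matrix
`g`, over the fixed field of the translations by `Spin₁₄(ℂ)`. -/
def Inj {L : Type} [Field L] [Algebra ℂ L] (g : Matrix Sp14.S Sp14.S L) : Prop :=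
  ResInj (Flag.quad (Sp14.forms g (Sp14.FF g)))

theorem result : ¬ Inj Sp14.gen :=
  Sp14.not_resInj

end Pool.Agent.Results.MP_d45d16_ag.SpinFourteen
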